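import Mathlib

namespace Pool.Agent.Results.MP_320b68_gt.Loops

open Set Metric Topology Filter ContinuousMap

abbrev E (n : ℕ) : Type := EuclideanSpace ℝ (Fin n)

/-- intrinsic distance: infimum of the lengths of paths in `M` -/
noncomputable def dM {n} (M : Set (E n)) (p q : E n) : ENNReal :=
  ⨅ (σ : ℝ → E n) (_ : ContinuousOn σ (Icc 0 1) ∧ MapsTo σ (Icc 0 1) M ∧ σ 0 = p ∧ σ 1 = q), eVariationOn σ (Icc 0 1)

/-- the standing hypotheses on `M` -/
structure Adm {n} (M : Set (E n)) : Prop where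
  compact : IsCompact M
  connected : IsConnected M
  geodesic : ∀ p ∈ M, ∀ q ∈ M, ∃ d ≥ 0, dM M p q = .ofReal d ∧ ∃ c : ℝ → E n, MapsTo c (Icc 0 d) M ∧ c 0 = p ∧ c d = q ∧
    ∀ s ∈ Icc 0 d, ∀ t ∈ Icc 0 d, dM M (c s) (c t) = .ofReal |s - t|
  m1 : ∃ ρ > 0, ∀ (X : Type) [TopologicalSpace X] (f g : C(X, M)), (∀ x, dM M (f x) (g x) < .ofReal ρ) → f.Homotopic g
  m2 : ∃ δ > 0, ∃ ξ > 1, ∀ p ∈ M, ∀ q ∈ M, dist p q < δ →
    edist p q ≤ dM M p q ∧ dM M p q ≤ .ofReal (ξ * dist p q)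
  m3 : ∃ U ∈ 𝓝ˢ M, ∃ π : E n → E n, ContinuousOn π U ∧ MapsTo π U M ∧ (∀ p ∈ M, π p = p) ∧
    ∃ ε : ℝ → ℝ, Tendsto ε (𝓝[>] 0) (𝓝 0) ∧ ∀ r > 0, {x | infDist x M ≤ r} ⊆ U →
      0 < ε r ∧ ∀ x, infDist x M ≤ r → dist (π x) x < ε r

/-- shadow of the Euclidean Vietoris-Rips complex -/
def Sh {n} (S : Finset (E n)) (β : ℝ) : Set (E n) :=
  ⋃ (s : Finset (E n)) (_ : s.Nonempty ∧ s ⊆ S ∧ diam (s : Set (E n)) < β), convexHull ℝ (s : Set (E n))

noncomputable def w (k : ℕ) : ℝ := (1 / 4) ^ (k + 1)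
noncomputable def tent (c : ℝ) (k : ℕ) (t : ℝ) : ℝ := max 0 (w k - |t - c * w k|)
noncomputable def f (c t : ℝ) : ℝ := ⨆ k, tent c k t
noncomputable def γ (t : ℝ) : E 3 := !₂[t, 24 * f 2 t, 24 * f 3 t]
def M : Set (E 3) := γ '' Icc 0 1

theorem w0 (k) : 0 < w k := by unfold w; positivity
theorem wlt {j k} (h : j < k) : 4 * w k ≤ w j := by
  have := pow_le_pow_of_le_one (a := (1 / 4 : ℝ)) (by norm_num) (by norm_num) (Nat.succ_le_succ h)
  rw [w, w, pow_succ _ k]; rw [pow_succ _ (j + 1)] at this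
  have := pow_le_pow_of_le_one (a := (1 / 4 : ℝ)) (by norm_num) (by norm_num) (show j + 1 ≤ k from h)
  linarith

theorem bdd (c t) : BddAbove (range fun k => tent c k t) := ⟨1, by
  rintro _ ⟨k, rfl⟩
  have : w k ≤ 1 := pow_le_one₀ (by norm_num) (by norm_num)
  exact max_le zero_le_one (by linarith [abs_nonneg (t - c * w k)])⟩

theorem f_lip (c s t) : |f c s - f c t| ≤ |s - t| := by
  have k : ∀ s t, f c s ≤ f c t + |s - t| := fun s t => ciSup_le fun k => by
    refine le_trans ?_ (add_le_add_left (le_ciSup (bdd c t) k) _)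
    have := abs_sub_le t s (c * w k)
    unfold tent; grind
  have := k s t; have := k t s; grind

theorem f_eq {c k t} (hc : c = 2 ∨ c = 3) (h : t ∈ Icc (w k) (4 * w k)) : f c t = tent c k t := by
  refine le_antisymm (ciSup_le fun j => ?_) (le_ciSup (bdd c t) k)
  have := w0 j
  rcases lt_trichotomy j k with l | rfl | l
  · have := wlt l; unfold tent; rcases hc with rfl | rfl <;> grind
  · rfl
  · have := wlt l; unfold tent; rcases hc with rfl | rfl <;> grind

theorem f_cases (t) : f 2 t = 0 ∨ f 3 t = 0 ∨ ∃ j, f 2 t + f 3 t = w j := by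
  by_cases h : ∃ k, tent 2 k t ≠ 0
  · obtain ⟨k, h⟩ := h
    have := w0 k
    have m : t ∈ Icc (w k) (4 * w k) := by unfold tent at h; grind
    rw [f_eq (.inl rfl) m, f_eq (.inr rfl) m]
    by_cases a : tent 3 k t = 0
    · simp [a]
    · exact .inr (.inr ⟨k, by unfold tent at *; grind⟩)
  · push Not at h; simp [f, h]

theorem γ_lip : LipschitzWith 34 γ := .of_dist_le_mul fun s t => by
  rw [EuclideanSpace.dist_eq, Real.sqrt_le_left (by positivity), Fin.sum_univ_three]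
  have a := sq_le_sq.2 (f_lip 2 s t); have b := sq_le_sq.2 (f_lip 3 s t)
  simp [γ, Real.dist_eq, mul_pow]
  nlinarith [sq_nonneg (s - t)]

theorem x_le (p q : E 3) (i) : |p i - q i| ≤ dist p q := PiLp.dist_apply_le p q i

theorem dM_symm {n} (M : Set (E n)) (p q) : dM M p q = dM M q p := by
  have k : ∀ p q, dM M p q ≤ dM M q p := fun p q => le_iInf₂ fun σ ⟨a, b, c, d⟩ => by
    have m : MapsTo (fun u : ℝ => 1 - u) (Icc 0 1) (Icc 0 1) := fun u hu => by grind
    exact iInf₂_le_of_le (σ ∘ fun u => 1 - u) ⟨a.comp (by fun_prop) m, b.comp m, by simpa, by simpa⟩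
      (eVariationOn.comp_le_of_antitoneOn _ _ (fun a _ b _ h => sub_le_sub_left h 1) m)
  exact (k p q).antisymm (k q p)

theorem dM_eq {s t} (hs : s ∈ Icc (0 : ℝ) 1) (ht : t ∈ Icc (0 : ℝ) 1) (h : s ≤ t) :
    dM M (γ s) (γ t) = eVariationOn γ (Icc s t) := by
  refine le_antisymm ?_ (le_iInf₂ fun σ ⟨a, b, c, d⟩ => ?_)
  · have m : MapsTo (fun u => s + u * (t - s)) (Icc 0 1) (Icc s t) := fun u hu => ⟨by nlinarith [hu.1], by nlinarith [hu.2]⟩
    exact iInf₂_le_of_le (γ ∘ fun u => s + u * (t - s)) ⟨(γ_lip.continuous.comp (by fun_prop)).continuousOn,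
      fun u hu => ⟨_, ⟨hs.1.trans (m hu).1, (m hu).2.trans ht.2⟩, rfl⟩, by simp, by simp⟩
      (eVariationOn.comp_le_of_monotoneOn _ _ (fun a _ b _ h' => by
        have := mul_le_mul_of_nonneg_right h' (sub_nonneg.2 h); linarith) m)
  · have cx : ContinuousOn (fun u => σ u 0) (Icc 0 1) := (by fun_prop : Continuous fun p : E 3 => p 0).comp_continuousOn a
    let A : ℝ → Set ℝ := fun r => Icc 0 1 ∩ (fun u => σ u 0) ⁻¹' Ici r
    have n : ∀ r ∈ Icc s t, 1 ∈ A r := fun r hr => ⟨by simp, by simpa [d, γ] using hr.2⟩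
    have bb : ∀ r, BddBelow (A r) := fun r => ⟨0, fun u hu => hu.1.1⟩
    have m : ∀ r ∈ Icc s t, sInf (A r) ∈ A r := fun r hr =>
      (cx.preimage_isClosed_of_isClosed isClosed_Icc isClosed_Ici).csInf_mem ⟨1, n r hr⟩ (bb r)
    refine (eVariationOn.eq_of_eqOn (f' := σ ∘ fun r => sInf (A r)) fun r hr => ?_).trans_le
      (eVariationOn.comp_le_of_monotoneOn _ _ (fun r hr r' hr' h' => csInf_le_csInf (bb r) ⟨1, n r' hr'⟩
        fun u hu => ⟨hu.1, h'.trans hu.2⟩) fun r hr => (m r hr).1)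
    obtain ⟨u, hu, e⟩ := intermediate_value_Icc (m r hr).1.1 (cx.mono (Icc_subset_Icc_right (m r hr).1.2))
      (show r ∈ _ from ⟨by simpa [c, γ] using hr.1, (m r hr).2⟩)
    have hu' : u ∈ Icc (0 : ℝ) 1 := ⟨hu.1, hu.2.trans (m r hr).1.2⟩
    obtain ⟨y, -, e'⟩ := b hu'
    rw [Function.comp, ← hu.2.antisymm (csInf_le (bb r) ⟨hu', e.ge⟩), ← e', ← e]
    simp [← e', γ]

noncomputable def ℓ (t : ℝ) : ℝ := variationOnFromTo γ univ 0 t

theorem V_le {s t} (h : s ≤ t) : eVariationOn γ (Icc s t) ≤ .ofReal (34 * (t - s)) := by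
  have a := (γ_lip.lipschitzOnWith (s := univ)).comp_eVariationOn_le (g := id) (s := Icc s t) (mapsTo_univ _ _)
  have b := ((monotone_id.monotoneOn univ).eVariationOn_eq (mem_univ s) (mem_univ t)).le
  rw [univ_inter] at b
  rw [ENNReal.ofReal_mul (by norm_num)]
  exact a.trans (mul_le_mul' (by simp) b)

theorem V_eq {s t} (h : s ≤ t) : eVariationOn γ (Icc s t) = .ofReal (ℓ t - ℓ s) ∧ ℓ s ≤ ℓ t := by
  have a := variationOnFromTo.add (γ_lip.locallyBoundedVariationOn univ) (mem_univ 0) (mem_univ s) (mem_univ t)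
  rw [variationOnFromTo.eq_of_le _ _ h, univ_inter] at a
  have : ℓ t - ℓ s = (eVariationOn γ (Icc s t)).toReal := by rw [ℓ, ℓ, ← a]; ring
  exact ⟨by rw [this, ENNReal.ofReal_toReal (ne_top_of_le_ne_top ENNReal.ofReal_ne_top (V_le h))],
    sub_nonneg.1 (this ▸ ENNReal.toReal_nonneg)⟩

theorem ℓ_lip (s t) : |ℓ s - ℓ t| ≤ 34 * |s - t| := by
  wlog h : s ≤ t generalizing s t
  · rw [abs_sub_comm, abs_sub_comm s]; exact this _ _ (by linarith)
  have := (ENNReal.ofReal_le_ofReal_iff (by linarith)).1 ((V_eq h).1 ▸ V_le h)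
  have := (V_eq h).2
  grind

theorem dM_ℓ {s t} (hs : s ∈ Icc (0 : ℝ) 1) (ht : t ∈ Icc (0 : ℝ) 1) : dM M (γ s) (γ t) = .ofReal |ℓ s - ℓ t| := by
  wlog h : s ≤ t generalizing s t
  · rw [dM_symm, abs_sub_comm]; exact this ht hs (by linarith)
  rw [dM_eq hs ht h, (V_eq h).1, abs_sub_comm, abs_of_nonneg (sub_nonneg.2 (V_eq h).2)]

theorem le_dM {n} (M : Set (E n)) (p q) : edist p q ≤ dM M p q := le_iInf₂ fun σ ⟨_, _, c, d⟩ =>
  c ▸ d ▸ eVariationOn.edist_le σ (by simp) (by simp)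

instance : ContractibleSpace M :=
  have := (convex_Icc (0 : ℝ) 1).contractibleSpace ⟨0, by simp⟩
  Homeomorph.contractibleSpace (Y := Icc (0 : ℝ) 1)
    { toFun p := ⟨p.1 0, by obtain ⟨_, t, h, rfl⟩ := p; exact h⟩
      invFun t := ⟨γ t, t, t.2, rfl⟩
      left_inv := by rintro ⟨_, t, h, rfl⟩; rfl
      right_inv t := rfl
      continuous_toFun := by fun_prop
      continuous_invFun := (γ_lip.continuous.comp continuous_subtype_val).subtype_mk _ }

theorem adm : Adm M where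
  compact := isCompact_Icc.image γ_lip.continuous
  connected := (isConnected_Icc zero_le_one).image _ γ_lip.continuous.continuousOn
  geodesic := by
    rintro _ ⟨s, hs, rfl⟩ _ ⟨t, ht, rfl⟩
    have c : Continuous ℓ := (LipschitzWith.of_dist_le_mul (K := 34) ℓ_lip).continuous
    choose! τ h1 h2 using fun y (hy : y ∈ uIcc (ℓ s) (ℓ t)) => intermediate_value_uIcc c.continuousOn hy
    replace h1 : ∀ y ∈ uIcc (ℓ s) (ℓ t), τ y ∈ Icc (0 : ℝ) 1 := fun y hy => uIcc_subset_Icc hs ht (h1 y hy)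
    obtain ⟨e, he, he'⟩ : ∃ e : ℝ, |e| = 1 ∧ ℓ s + e * |ℓ s - ℓ t| = ℓ t ∧
        ∀ u ∈ Icc 0 |ℓ s - ℓ t|, ℓ s + e * u ∈ uIcc (ℓ s) (ℓ t) := by
      rcases le_total (ℓ s) (ℓ t) with h | h
      exacts [⟨1, by grind [uIcc_of_le]⟩, ⟨-1, by grind [uIcc_of_ge]⟩]
    have k : ∀ r ∈ Icc (0 : ℝ) 1, ℓ r ∈ uIcc (ℓ s) (ℓ t) → γ (τ (ℓ r)) = γ r := fun r hr h => by
      simpa [dM_ℓ (h1 _ h) hr, h2 _ h] using le_dM M (γ (τ (ℓ r))) (γ r)
    refine ⟨_, abs_nonneg _, dM_ℓ hs ht, fun u => γ (τ (ℓ s + e * u)), fun u hu => ⟨_, h1 _ (he'.2 u hu), rfl⟩,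
      by simpa using k s hs left_mem_uIcc, by simpa [he'.1] using k t ht right_mem_uIcc, fun u hu v hv => ?_⟩
    rw [dM_ℓ (h1 _ (he'.2 u hu)) (h1 _ (he'.2 v hv)), h2 _ (he'.2 u hu), h2 _ (he'.2 v hv), add_sub_add_left_eq_sub,
      ← mul_sub, abs_mul, he, one_mul]
  m1 := ⟨1, one_pos, fun X _ f g _ => by
    obtain ⟨y, h⟩ := id_nullhomotopic M
    exact (h.comp (.refl f)).trans (h.comp (.refl g)).symm⟩
  m2 := ⟨1, one_pos, 34, by norm_num, by
    rintro _ ⟨s, hs, rfl⟩ _ ⟨t, ht, rfl⟩ -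
    refine ⟨le_dM _ _ _, dM_ℓ hs ht ▸ ENNReal.ofReal_le_ofReal ((ℓ_lip s t).trans ?_)⟩
    gcongr; exact x_le (γ s) (γ t) 0⟩
  m3 := ⟨univ, univ_mem, fun x => γ (projIcc 0 1 zero_le_one (x 0)), (γ_lip.continuous.comp (by fun_prop)).continuousOn,
    fun x _ => ⟨_, (projIcc 0 1 zero_le_one (x 0)).2, rfl⟩, by
      rintro _ ⟨t, h, rfl⟩; simp only; rw [projIcc_of_mem _ (by exact h)]; rfl,
    fun r => 36 * r, ((by fun_prop : Continuous fun r : ℝ => 36 * r).tendsto' 0 0 (by simp)).mono_left nhdsWithin_le_nhds,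
    fun r hr _ => ⟨by positivity, fun x hx => by
      obtain ⟨_, ⟨t, ht, rfl⟩, e⟩ := ((isCompact_Icc (a := 0) (b := 1)).image γ_lip.continuous).exists_infDist_eq_dist
        ⟨_, 0, by simp, rfl⟩ x
      have a := γ_lip.dist_le_mul (projIcc 0 1 zero_le_one (x 0)) t
      have b := abs_projIcc_sub_projIcc zero_le_one (c := x 0) (d := t)
      rw [projIcc_of_mem _ ht] at b
      have c : |x 0 - t| ≤ _ := x_le x (γ t) 0
      have := dist_triangle_right (γ (projIcc 0 1 zero_le_one (x 0))) x (γ t)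
      rw [M, e] at hx
      simp only [Real.dist_eq, NNReal.coe_ofNat] at a b
      linarith⟩⟩

theorem result : ∃ (N : ℕ) (M : Set (E N)), Adm M ∧ ∀ β₀ > 0, ∃ β ∈ Ioo 0 β₀, ∀ η > 0, ∃ S : Finset (E N),
    hausdorffEDist (S : Set (E N)) M < .ofReal η ∧ IsEmpty (Sh S β ≃ₕ M) := by
  classical
  refine ⟨3, M, adm, fun β₀ h₀ => ?_⟩
  obtain ⟨k, hk⟩ := exists_pow_lt_of_lt_one h₀ (show (1 / 4 : ℝ) < 1 by norm_num)
  have wk := w0 k
  refine ⟨4 * w k, ⟨by positivity, by rw [w, pow_succ]; linarith⟩, fun η hη => ?_⟩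
  obtain ⟨m, hm⟩ := exists_nat_gt (max 34 (34 * w k / η))
  have m1 : (34 : ℝ) < m := (le_max_left _ _).trans_lt hm
  set h := w k / m with hh
  have h0 : 0 < h := by positivity
  have mh : m * h = w k := by rw [hh]; field_simp
  have J : ((m * 4 ^ (k + 1) : ℕ) : ℝ) * h = 1 := by
    push_cast; rw [mul_right_comm, mh, w, ← mul_pow]; norm_num
  set S := (Finset.range (m * 4 ^ (k + 1) + 1)).image fun j : ℕ => γ (j * h) with hS
  have SM : ∀ p ∈ S, p ∈ M := by
    simp only [hS, Finset.mem_image, Finset.mem_range]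
    rintro _ ⟨j, hj, rfl⟩
    exact ⟨_, ⟨by positivity, J ▸ by gcongr; omega⟩, rfl⟩
  refine ⟨S, (hausdorffEDist_le_of_mem_edist (r := .ofReal (34 * h)) (fun p hp => ⟨p, SM p hp, by simp⟩) ?_).trans_lt
    ((ENNReal.ofReal_lt_ofReal_iff hη).2 ?_), ⟨fun e => ?_⟩⟩
  · rintro _ ⟨t, ht, rfl⟩
    have a := Nat.floor_le (div_nonneg ht.1 h0.le)
    have b := Nat.lt_floor_add_one (t / h)
    rw [le_div_iff₀ h0] at a; rw [div_lt_iff₀ h0] at b
    refine ⟨_, Finset.mem_image.2 ⟨⌊t / h⌋₊, Finset.mem_range.2 (Nat.lt_succ_of_le (Nat.floor_le_of_le ?_)), rfl⟩, ?_⟩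
    · rw [div_le_iff₀ h0, J]; exact ht.2
    · rw [edist_dist]
      refine ENNReal.ofReal_le_ofReal ((γ_lip.dist_le_mul _ _).trans ?_)
      rw [Real.dist_eq, abs_of_nonneg (by linarith)]; push_cast; linarith
  · have := (div_lt_iff₀ hη).1 ((le_max_right _ _).trans_lt hm)
    rw [hh, ← mul_div_assoc, div_lt_iff₀ (by linarith)]; linarith
  have := e.contractibleSpace
  let G : E 3 → ℂ := fun x => ⟨x 1 - 8 * w k, x 2 - 8 * w k⟩
  have cG : Continuous G := by
    have : G = fun x => ((x 1 - 8 * w k : ℝ) : ℂ) + ((x 2 - 8 * w k : ℝ) : ℂ) * Complex.I := by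
      ext x; apply Complex.ext <;> simp [G]
    rw [this]; fun_prop
  have G0 : ∀ x ∈ Sh S (4 * w k), G x ≠ 0 := fun x hx z => by
    simp only [Sh, mem_iUnion] at hx
    obtain ⟨s, ⟨⟨v, hv⟩, sub, dm⟩, hx⟩ := hx
    have d := (dist_le_diam_of_mem (isBounded_convexHull.2 s.finite_toSet.isBounded) hx
      (subset_convexHull ℝ _ hv)).trans_lt (convexHull_diam (s : Set (E 3)) ▸ dm)
    obtain ⟨t, -, rfl⟩ := SM v (sub hv)
    have a : |x 1 - 24 * f 2 t| < _ := (x_le x (γ t) 1).trans_lt d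
    have b : |x 2 - 24 * f 3 t| < _ := (x_le x (γ t) 2).trans_lt d
    simp only [G, Complex.ext_iff, Complex.zero_re, Complex.zero_im] at z
    rw [abs_lt] at a b
    rcases f_cases t with c | c | ⟨j, c⟩
    · linarith
    · linarith
    · rcases lt_trichotomy j k with l | rfl | l
      · linarith [wlt l]
      · linarith
      · linarith [wlt l]
  obtain ⟨g, cg, hg⟩ : ∃ g : E 3 → ℂ, ContinuousOn g (Sh S (4 * w k)) ∧ ∀ x ∈ Sh S (4 * w k), Complex.exp (g x) = G x := by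
    obtain ⟨y, ⟨H⟩⟩ := id_nullhomotopic (Sh S (4 * w k))
    let G' : C(Sh S (4 * w k), {z : ℂ // z ≠ 0}) := ⟨fun x => ⟨G x, G0 x x.2⟩, by fun_prop⟩
    let L := Complex.isCoveringMap_exp.liftHomotopy (G'.comp H.symm.toContinuousMap) (.const _ (Complex.log (G y)))
      fun a => Subtype.ext (by simp [G', Complex.exp_log (G0 y y.2)])
    refine ⟨fun x => if h : x ∈ _ then L (1, ⟨x, h⟩) else 0, continuousOn_iff_continuous_restrict.2 ?_, fun x hx => ?_⟩
    · convert L.continuous.comp (Continuous.prodMk_right 1) using 1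
      ext x; simp
    · have : Complex.exp (L (1, ⟨x, hx⟩)) = _ :=
        congrArg Subtype.val (congrFun (Complex.isCoveringMap_exp.liftHomotopy_lifts _ _ _) (1, (⟨x, hx⟩ : Sh S (4 * w k))))
      simpa [hx, G'] using this
  have st : ∀ (σ : ℂ) (i j : ℕ), σ = 1 ∨ σ = -1 → i ≤ 4 * m → j ≤ 4 * m → dist (γ (i * h)) (γ (j * h)) < 4 * w k →
      ∀ a b : ℝ, (∀ z : ℂ, 0 < a * z.re + b * z.im → σ * z ∈ Complex.slitPlane) →
      (∀ l : ℕ, l = i ∨ l = j → 0 < a * (24 * f 2 (l * h) - 8 * w k) + b * (24 * f 3 (l * h) - 8 * w k)) →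
      g (γ (i * h)) - Complex.log (σ * G (γ (i * h))) = g (γ (j * h)) - Complex.log (σ * G (γ (j * h))) := by
    intro σ i j hσ hi hj d a b ab ha
    have s0 : σ ≠ 0 := by rcases hσ with rfl | rfl <;> simp
    have mS : ∀ l ≤ 4 * m, γ (l * h) ∈ S := fun l hl => Finset.mem_image.2 ⟨l, Finset.mem_range.2 (by
      have : 4 ≤ 4 ^ (k + 1) := Nat.le_self_pow (by omega) 4
      nlinarith), rfl⟩
    have sub : segment ℝ (γ (i * h)) (γ (j * h)) ⊆ Sh S (4 * w k) := fun p hp => by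
      simp only [Sh, mem_iUnion]
      exact ⟨{γ (i * h), γ (j * h)}, ⟨by simp, by simp [Finset.insert_subset_iff, mS, hi, hj], by simpa [diam_pair]⟩,
        by simpa⟩
    have sl : ∀ p ∈ segment ℝ (γ (i * h)) (γ (j * h)), σ * G p ∈ Complex.slitPlane := by
      rintro _ ⟨u, v, hu, hv, uv, rfl⟩
      refine ab _ ?_
      have x := ha i (.inl rfl); have y := ha j (.inr rfl)
      have := convex_Ioi (𝕜 := ℝ) (0 : ℝ) x y hu hv uv
      obtain rfl : v = 1 - u := by linarith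
      simp [G, γ] at this ⊢; linarith
    refine Complex.isCoveringMap_exp.constOn_of_comp (g := fun p => g p - Complex.log (σ * G p))
      (convex_segment _ _).isPreconnected ((cg.mono sub).sub ((cG.const_mul σ).continuousOn.clog sl))
      (fun p hp q hq => Subtype.ext ?_) (left_mem_segment _ _ _) (right_mem_segment _ _ _)
    have := G0 p (sub hp); have := G0 q (sub hq)
    simp only [Complex.exp_sub, hg p (sub hp), hg q (sub hq), Complex.exp_log (Complex.slitPlane_ne_zero (sl p hp)),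
      Complex.exp_log (Complex.slitPlane_ne_zero (sl q hq))]
    field_simp
  have ch : ∀ (σ : ℂ) (c : ℕ), σ = 1 ∨ σ = -1 → c ≤ 3 → ∀ a b : ℝ,
      (∀ z : ℂ, 0 < a * z.re + b * z.im → σ * z ∈ Complex.slitPlane) →
      (∀ t ∈ Icc (c * w k) ((c + 1) * w k), 0 < a * (24 * f 2 t - 8 * w k) + b * (24 * f 3 t - 8 * w k)) →
      g (γ (c * w k)) - Complex.log (σ * G (γ (c * w k))) =
        g (γ ((c + 1) * w k)) - Complex.log (σ * G (γ ((c + 1) * w k))) := fun σ c hσ hc a b ab ha => by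
    have : ∀ l ≤ m, g (γ ((c * m : ℕ) * h)) - Complex.log (σ * G (γ ((c * m : ℕ) * h))) =
        g (γ ((c * m + l : ℕ) * h)) - Complex.log (σ * G (γ ((c * m + l : ℕ) * h))) := fun l => by
      induction l with
      | zero => simp
      | succ l ih =>
        intro hl
        have l1 : (l : ℝ) + 1 ≤ m := by exact_mod_cast hl
        refine (ih (by omega)).trans (st σ _ _ hσ (by nlinarith) (by nlinarith) ((γ_lip.dist_le_mul _ _).trans_lt ?_)
          a b ab ?_)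
        · rw [Real.dist_eq, abs_sub_comm, abs_of_nonneg (by push_cast; nlinarith)]; push_cast; nlinarith
        · rintro _ (rfl | rfl) <;> refine ha _ ⟨?_, ?_⟩ <;> push_cast <;> nlinarith
    convert this m le_rfl using 4 <;> push_cast <;> rw [← mh] <;> ring_nf
  have ev : ∀ t ∈ Icc (w k) (4 * w k), f 2 t = tent 2 k t ∧ f 3 t = tent 3 k t := fun t ht =>
    ⟨f_eq (.inl rfl) ht, f_eq (.inr rfl) ht⟩
  have e1 := ch 1 1 (.inl rfl) (by omega) 0 (-1) (fun z hz => .inr (by simp at hz ⊢; linarith)) fun t ht => by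
    have := ev t (by grind); unfold tent at this; grind
  have e2 := ch 1 2 (.inl rfl) (by omega) 1 1 (fun z hz => by simp [Complex.mem_slitPlane_iff] at hz ⊢; grind) fun t ht => by
    have := ev t (by grind); unfold tent at this; grind
  have e3 := ch (-1) 3 (.inr rfl) (by omega) (-1) 0 (fun z hz => .inl (by simpa using hz)) fun t ht => by
    have := ev t (by grind); unfold tent at this; grind
  have p1 := ev (w k) (by grind); have p3 := ev (3 * w k) (by grind); have p4 := ev (4 * w k) (by grind)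
  replace p1 : f 2 (w k) = 0 ∧ f 3 (w k) = 0 := by unfold tent at p1; grind
  replace p3 : f 3 (3 * w k) = w k := by unfold tent at p3; grind
  replace p4 : f 2 (4 * w k) = 0 ∧ f 3 (4 * w k) = 0 := by unfold tent at p4; grind
  have m4 : ((4 * m : ℕ) : ℝ) * h = 4 * w k := by push_cast; rw [← mh]; ring
  have e4 := st 1 m (4 * m) (.inl rfl) (by omega) le_rfl (by
      rw [mh, m4, EuclideanSpace.dist_eq, Real.sqrt_lt' (by positivity), Fin.sum_univ_three]
      simp [γ, p1, p4, Real.dist_eq]; nlinarith) 0 (-1) (fun z hz => .inr (by simp at hz ⊢; linarith))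
    (by rintro _ (rfl | rfl) <;> simp [mh, m4, p1, p4, wk, -Nat.cast_mul])
  rw [mh, m4] at e4
  norm_num at e1 e2 e3 e4
  have a := Complex.arg_neg_eq_arg_add_pi_of_im_neg (x := G (γ (4 * w k))) (by simp [G, γ, p4, wk])
  have b := Complex.arg_neg_eq_arg_sub_pi_of_im_pos (x := G (γ (3 * w k))) (by simp [G, γ, p3]; linarith)
  have := congrArg Complex.im e1; have := congrArg Complex.im e2; have := congrArg Complex.im e3
  have := congrArg Complex.im e4
  simp only [Complex.sub_im, Complex.log_im] at *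
  linarith [Real.pi_pos]

end Pool.Agent.Results.MP_320b68_gt.Loops
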